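import Pool.Agent.Helper28.VF.Defs

namespace Helper51.VF

open Finset Equiv Helper28.VF

section

variable {D V E F : Type} [Fintype D] [Fintype V] [Fintype E] [Fintype F]
  [DecidableEq D] [DecidableEq V] [DecidableEq E] [DecidableEq F] (M : PM D V E F)

include M in
theorem card_D : Fintype.card D = 2 * Fintype.card E := by
  have h : ∀ e : E, (univ.filter (fun d => M.ed d = e)).card = 2 := by
    intro e
    obtain ⟨d, rfl⟩ := M.ed_surj e
    have : univ.filter (fun x => M.ed x = M.ed d) = {d, M.α d} := by
      ext x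
      simp only [mem_filter, mem_univ, true_and, mem_insert, mem_singleton]
      constructor
      · intro hx
        exact (M.ed_iff d x).1 hx.symm
      · intro hx
        exact ((M.ed_iff d x).2 hx).symm
    rw [this, card_pair (M.α_ne d).symm]
  have h2 := Finset.card_eq_sum_card_fiberwise (f := M.ed) (s := (univ : Finset D))
    (t := (univ : Finset E)) (fun _ _ => mem_coe.2 (mem_univ _))
  rw [Finset.card_univ] at h2
  rw [h2, Finset.sum_congr rfl (fun e _ => h e)]
  simp [mul_comm]

/-- what is missing at a vertex -/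
def offV (A : Finset V) (v : V) : ℕ := if v ∈ A then 2 else 3
def offF (f₀ : F) (f : F) : ℕ := if f = f₀ then 0 else 3

theorem sum_offV (A Y : Finset V) : (∑ v ∈ Y, offV A v) + (Y ∩ A).card = 3 * Y.card := by
  have h : (Y ∩ A).card = ∑ v ∈ Y, (if v ∈ A then 1 else 0) := by
    rw [← Finset.sum_filter, Finset.sum_const, smul_eq_mul, mul_one, Finset.filter_mem_eq_inter]
  rw [h, ← Finset.sum_add_distrib]
  rw [Finset.sum_congr rfl (g := fun _ => 3)]
  · simp [mul_comm]
  · intro v _
    unfold offV
    split_ifs <;> rfl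

theorem sum_offF (f₀ : F) (Y : Finset F) :
    (∑ f ∈ Y, offF f₀ f) + (if f₀ ∈ Y then 3 else 0) = 3 * Y.card := by
  have h : (if f₀ ∈ Y then 3 else 0) = ∑ f ∈ Y, (if f = f₀ then 3 else 0) := by
    rw [Finset.sum_ite_eq']
  rw [h, ← Finset.sum_add_distrib]
  rw [Finset.sum_congr rfl (g := fun _ => 3)]
  · simp [mul_comm]
  · intro v _
    unfold offF
    split_ifs <;> rfl

def degV (v : V) : ℕ := (univ.filter (fun d => M.vt d = v)).card
def lenF (f : F) : ℕ := (univ.filter (fun d => M.fc d = f)).card

theorem sum_degV (Y : Finset V) : ∑ v ∈ Y, degV M v = (univ.filter (fun d => M.vt d ∈ Y)).card := by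
  rw [Finset.card_eq_sum_card_fiberwise (f := M.vt) (t := Y)]
  · refine Finset.sum_congr rfl (fun v hv => ?_)
    unfold degV
    congr 1
    ext d
    simp only [mem_filter, mem_univ, true_and]
    constructor
    · rintro rfl; exact ⟨hv, rfl⟩
    · exact fun h => h.2
  · intro d hd
    simpa using hd

theorem sum_lenF (Y : Finset F) : ∑ f ∈ Y, lenF M f = (univ.filter (fun d => M.fc d ∈ Y)).card := by
  rw [Finset.card_eq_sum_card_fiberwise (f := M.fc) (t := Y)]
  · refine Finset.sum_congr rfl (fun v hv => ?_)
    unfold lenF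
    congr 1
    ext d
    simp only [mem_filter, mem_univ, true_and]
    constructor
    · rintro rfl; exact ⟨hv, rfl⟩
    · exact fun h => h.2
  · intro d hd
    simpa using hd

/-- number of edges to be given to an element -/
def need (A : Finset V) (f₀ : F) : V ⊕ F → ℕ
  | Sum.inl v => degV M v - offV A v
  | Sum.inr f => lenF M f - offF f₀ f

def touch : V ⊕ F → Finset E
  | Sum.inl v => (univ.filter (fun d => M.vt d = v)).image M.ed
  | Sum.inr f => (univ.filter (fun d => M.fc d = f)).image M.ed

theorem sum_need_split (A : Finset V) (f₀ : F) (Z : Finset (V ⊕ F)) :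
    (∑ z ∈ Z, need M A f₀ z) + (∑ v ∈ univ.filter (fun v => Sum.inl v ∉ Z), need M A f₀ (Sum.inl v))
      + (∑ f ∈ univ.filter (fun f => Sum.inr f ∉ Z), need M A f₀ (Sum.inr f)) =
      ∑ z, need M A f₀ z := by
  classical
  have h1 : ∑ z ∈ Z, need M A f₀ z = ∑ z, (if z ∈ Z then need M A f₀ z else 0) := by
    rw [Finset.sum_ite_mem, univ_inter]
  rw [h1, Fintype.sum_sum_type, Fintype.sum_sum_type, Finset.sum_filter, Finset.sum_filter]
  have h2 : ∀ v : V, (if Sum.inl v ∈ Z then need M A f₀ (Sum.inl v) else 0) +
      (if Sum.inl v ∉ Z then need M A f₀ (Sum.inl v) else 0) = need M A f₀ (Sum.inl v) := by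
    intro v; split_ifs <;> simp_all
  have h3 : ∀ v : F, (if Sum.inr v ∈ Z then need M A f₀ (Sum.inr v) else 0) +
      (if Sum.inr v ∉ Z then need M A f₀ (Sum.inr v) else 0) = need M A f₀ (Sum.inr v) := by
    intro v; split_ifs <;> simp_all
  rw [← Finset.sum_congr rfl (fun v _ => h2 v), ← Finset.sum_congr rfl (fun v _ => h3 v),
    Finset.sum_add_distrib, Finset.sum_add_distrib]
  ring

variable (hdV : ∀ v, 3 ≤ degV M v) (hdF : ∀ f, 3 ≤ lenF M f)

include hdV in
theorem sum_needV (A Y : Finset V) (f₀ : F) :
    (∑ v ∈ Y, need M A f₀ (Sum.inl v)) + 3 * Y.card =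
      (univ.filter (fun d => M.vt d ∈ Y)).card + (Y ∩ A).card := by
  have h1 : ∑ v ∈ Y, need M A f₀ (Sum.inl v) + ∑ v ∈ Y, offV A v = ∑ v ∈ Y, degV M v := by
    rw [← Finset.sum_add_distrib]
    refine Finset.sum_congr rfl (fun v _ => ?_)
    have := hdV v
    simp only [need]
    have h2 : offV A v ≤ 3 := by unfold offV; split_ifs <;> omega
    omega
  have h2 := sum_offV A Y
  have h3 := sum_degV M Y
  omega

include hdF in
theorem sum_needF (A : Finset V) (Y : Finset F) (f₀ : F) :
    (∑ f ∈ Y, need M A f₀ (Sum.inr f)) + 3 * Y.card =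
      (univ.filter (fun d => M.fc d ∈ Y)).card + (if f₀ ∈ Y then 3 else 0) := by
  have h1 : ∑ v ∈ Y, need M A f₀ (Sum.inr v) + ∑ v ∈ Y, offF f₀ v = ∑ v ∈ Y, lenF M v := by
    rw [← Finset.sum_add_distrib]
    refine Finset.sum_congr rfl (fun v _ => ?_)
    have := hdF v
    simp only [need]
    have h2 : offF f₀ v ≤ 3 := by unfold offF; split_ifs <;> omega
    omega
  have h2 := sum_offF f₀ Y
  have h3 := sum_lenF M Y
  omega

include hdV hdF in
theorem sum_need (A : Finset V) (hA : A.card = 3) (f₀ : F) :
    ∑ z, need M A f₀ z = Fintype.card E := by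
  have h1 := sum_needV M hdV A univ f₀
  have h2 := sum_needF M hdF A univ f₀
  have h3 := card_D M
  have h4 := M.euler
  rw [Fintype.sum_sum_type]
  simp only [mem_univ, filter_true, card_univ, univ_inter, if_true, hA] at h1 h2
  omega

theorem biUnion_touch (Z : Finset (V ⊕ F)) :
    Z.biUnion (touch M) = univ \ M.SE (univ.filter (fun v => Sum.inl v ∉ Z))
      (univ.filter (fun f => Sum.inr f ∉ Z)) := by
  ext e
  obtain ⟨d, rfl⟩ := M.ed_surj e
  simp only [mem_biUnion, mem_sdiff, mem_univ, true_and, PM.SE, mem_image, mem_filter, PM.Full]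
  have hα : M.ed (M.α d) = M.ed d := ((M.ed_iff d (M.α d)).2 (Or.inr rfl)).symm
  constructor
  · rintro ⟨z, hz, hzt⟩ ⟨c, ⟨h1, h2, h3, h4⟩, hc⟩
    have hcd : c = d ∨ c = M.α d := (M.ed_iff d c).1 hc.symm
    rcases z with v | f
    · simp only [touch, mem_image, mem_filter, mem_univ, true_and] at hzt
      obtain ⟨x, rfl, hx⟩ := hzt
      have hxd : x = d ∨ x = M.α d := (M.ed_iff d x).1 hx.symm
      rcases hcd with rfl | rfl <;> rcases hxd with rfl | rfl <;>
        simp_all [M.α_inv]
    · simp only [touch, mem_image, mem_filter, mem_univ, true_and] at hzt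
      obtain ⟨x, rfl, hx⟩ := hzt
      have hxd : x = d ∨ x = M.α d := (M.ed_iff d x).1 hx.symm
      rcases hcd with rfl | rfl <;> rcases hxd with rfl | rfl <;>
        simp_all [M.α_inv]
  · intro h
    by_contra hcon
    push Not at hcon
    apply h
    refine ⟨d, ⟨?_, ?_, ?_, ?_⟩, rfl⟩
    · intro hz
      apply hcon _ hz
      simp only [touch, mem_image, mem_filter, mem_univ, true_and]
      exact ⟨d, rfl, rfl⟩
    · intro hz
      apply hcon _ hz
      simp only [touch, mem_image, mem_filter, mem_univ, true_and]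
      exact ⟨M.α d, rfl, hα⟩
    · intro hz
      apply hcon _ hz
      simp only [touch, mem_image, mem_filter, mem_univ, true_and]
      exact ⟨d, rfl, rfl⟩
    · intro hz
      apply hcon _ hz
      simp only [touch, mem_image, mem_filter, mem_univ, true_and]
      exact ⟨M.α d, rfl, hα⟩

end

theorem stmtAssign (h : StmtHallIneq) (hd : StmtDeg) : StmtAssign := by
  intro D V E F _ _ _ _ _ _ _ _ M hC f₀ a₁ a₂ a₃ h12 h13 h23
  classical
  obtain ⟨hdV, hdF, -⟩ := hd D V E F M hC
  change ∀ v, 3 ≤ degV M v at hdV
  change ∀ f, 3 ≤ lenF M f at hdF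
  set A : Finset V := {a₁, a₂, a₃} with hA
  have hA3 : A.card = 3 := by
    rw [hA, card_insert_of_notMem, card_pair h23]
    simp [h12, h13]
  have hH := h D V E F M hC f₀ a₁ a₂ a₃ h12 h13 h23
  have htot := sum_need M hdV hdF A hA3 f₀
  -- Hall's condition
  have hall : ∀ Z : Finset (V ⊕ F), ∑ z ∈ Z, need M A f₀ z ≤ (Z.biUnion (touch M)).card := by
    intro Z
    have h1 := sum_need_split M A f₀ Z
    have h2 := sum_needV M hdV A (univ.filter (fun v => Sum.inl v ∉ Z)) f₀
    have h3 := sum_needF M hdF A (univ.filter (fun f => Sum.inr f ∉ Z)) f₀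
    have h4 := hH (univ.filter (fun v => Sum.inl v ∉ Z)) (univ.filter (fun f => Sum.inr f ∉ Z))
    rw [← hA] at h4
    rw [biUnion_touch, card_sdiff_of_subset (subset_univ _), card_univ]
    have h5 : (M.SE (univ.filter (fun v => Sum.inl v ∉ Z))
      (univ.filter (fun f => Sum.inr f ∉ Z))).card ≤ Fintype.card E := card_le_univ _
    omega
  let I := (z : V ⊕ F) × Fin (need M A f₀ z)
  have hcard : Fintype.card I = Fintype.card E := by
    rw [Fintype.card_sigma]
    simpa using htot
  have hg : ∃ g : I → E, Function.Injective g ∧ ∀ i, g i ∈ touch M i.1 := by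
    apply (Finset.all_card_le_biUnion_card_iff_exists_injective (fun i : I => touch M i.1)).1
    intro s
    set Z : Finset (V ⊕ F) := s.image Sigma.fst with hZ
    have h1 : s.biUnion (fun i : I => touch M i.1) = Z.biUnion (touch M) := by
      rw [hZ, image_biUnion]
    rw [h1]
    refine le_trans ?_ (hall Z)
    have h2 : s ⊆ Z.sigma (fun z => (univ : Finset (Fin (need M A f₀ z)))) := by
      intro i hi
      rw [mem_sigma]
      exact ⟨mem_image_of_mem _ hi, mem_univ _⟩
    refine (card_le_card h2).trans ?_
    rw [card_sigma]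
    simp
  obtain ⟨g, hginj, hgt⟩ := hg
  have hgbij : Function.Bijective g := (Fintype.bijective_iff_injective_and_card g).2
    ⟨hginj, hcard⟩
  let ge : I ≃ E := Equiv.ofBijective g hgbij
  let zz : E → V ⊕ F := fun e => (ge.symm e).1
  have hzz : ∀ e, e ∈ touch M (zz e) := by
    intro e
    have := hgt (ge.symm e)
    rwa [show g (ge.symm e) = e from ge.apply_symm_apply e] at this
  have hcnt : ∀ z, (univ.filter (fun e => zz e = z)).card = need M A f₀ z := by
    intro z
    have h1 : (univ.filter (fun e => zz e = z)) =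
        (univ.filter (fun i : I => i.1 = z)).map ge.toEmbedding := by
      ext e
      simp only [mem_filter, mem_univ, true_and, mem_map, Equiv.coe_toEmbedding, zz]
      constructor
      · intro he
        exact ⟨ge.symm e, he, ge.apply_symm_apply e⟩
      · rintro ⟨i, hi, rfl⟩
        rw [ge.symm_apply_apply]; exact hi
    rw [h1, card_map]
    have h2 : (univ.filter (fun i : I => i.1 = z)) =
        (univ : Finset (Fin (need M A f₀ z))).map ⟨fun k => (⟨z, k⟩ : I), by
          intro k l hkl
          simpa using hkl⟩ := by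
      ext ⟨z', k⟩
      simp only [mem_filter, mem_univ, true_and, mem_map, Function.Embedding.coeFn_mk]
      constructor
      · rintro rfl
        exact ⟨k, rfl⟩
      · rintro ⟨l, hl⟩
        exact (congrArg Sigma.fst hl).symm
    rw [h2, card_map, card_univ, Fintype.card_fin]
  -- the chosen dart
  have hc : ∀ e, ∃ d, M.ed d = e ∧ (∀ v, zz e = Sum.inl v → M.vt d = v) ∧
      (∀ f, zz e = Sum.inr f → M.fc d = f) := by
    intro e
    have h1 := hzz e
    rcases hz : zz e with v | f
    · rw [hz] at h1
      simp only [touch, mem_image, mem_filter, mem_univ, true_and] at h1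
      obtain ⟨d, hd1, hd2⟩ := h1
      refine ⟨d, hd2, ?_, ?_⟩
      · intro v' hv'
        rw [hd1]; exact Sum.inl_injective hv'
      · intro f hf
        cases hf
    · rw [hz] at h1
      simp only [touch, mem_image, mem_filter, mem_univ, true_and] at h1
      obtain ⟨d, hd1, hd2⟩ := h1
      refine ⟨d, hd2, ?_, ?_⟩
      · intro v' hv'
        cases hv'
      · intro f' hf
        rw [hd1]; exact Sum.inr_injective hf
  choose c hc1 hc2 hc3 using hc
  have hcd : ∀ d, (c (M.ed d) = d ∧ c (M.ed d) ≠ M.α d) ∨ (c (M.ed d) = M.α d ∧ c (M.ed d) ≠ d) := by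
    intro d
    have h1 : M.ed d = M.ed (c (M.ed d)) := (hc1 _).symm
    rcases (M.ed_iff d _).1 h1 with h2 | h2
    · left; rw [h2]; exact ⟨rfl, (M.α_ne d).symm⟩
    · right; rw [h2]; exact ⟨rfl, M.α_ne d⟩
  have hα : ∀ d, M.ed (M.α d) = M.ed d := fun d => ((M.ed_iff d (M.α d)).2 (Or.inr rfl)).symm
  refine ⟨fun d => if (zz (M.ed d)).isLeft = true ∧ c (M.ed d) = d then 0 else 1,
    fun d => if (zz (M.ed d)).isRight = true ∧ c (M.ed d) = d then 0 else 1, ?_, ?_, ?_, ?_, ?_⟩
  · intro d; dsimp only; split_ifs <;> omega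
  · intro d; dsimp only; split_ifs <;> omega
  · intro d
    dsimp only
    rw [hα]
    rcases hz : zz (M.ed d) with v | f
    · rcases hcd d with ⟨h1, h2⟩ | ⟨h1, h2⟩
      · simp [h1, (M.α_ne d).symm]
      · simp [h1, M.α_ne d]
    · rcases hcd d with ⟨h1, h2⟩ | ⟨h1, h2⟩
      · simp [h1, (M.α_ne d).symm]
      · simp [h1, M.α_ne d]
  · intro v
    have key : ∑ d ∈ univ.filter (fun d => M.vt d = v),
        (if (zz (M.ed d)).isLeft = true ∧ c (M.ed d) = d then 0 else 1) +
        need M A f₀ (Sum.inl v) = degV M v := by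
      rw [← hcnt, ← card_image_of_injOn (f := c) (s := univ.filter (fun e => zz e = Sum.inl v))]
      · have h1 : (univ.filter (fun e => zz e = Sum.inl v)).image c =
            (univ.filter (fun d => M.vt d = v)).filter
              (fun d => (zz (M.ed d)).isLeft = true ∧ c (M.ed d) = d) := by
          ext d
          simp only [mem_image, mem_filter, mem_univ, true_and]
          constructor
          · rintro ⟨e, he, rfl⟩
            rw [hc1 e, he]
            exact ⟨hc2 e v he, rfl, rfl⟩
          · rintro ⟨h1, h2, h3⟩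
            refine ⟨M.ed d, ?_, h3⟩
            rcases hz : zz (M.ed d) with w | f
            · have := hc2 _ _ hz
              rw [h3, h1] at this
              rw [this]
            · rw [hz] at h2; cases h2
        rw [h1, Finset.card_filter, ← Finset.sum_add_distrib]
        unfold degV
        rw [Finset.card_eq_sum_ones]
        refine Finset.sum_congr rfl (fun d _ => ?_)
        split_ifs <;> rfl
      · intro e _ e' _ hee
        rw [← hc1 e, ← hc1 e', hee]
    have h3 := hdV v
    simp only [need, offV] at key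
    dsimp only
    have hAm : v ∈ A ↔ (v = a₁ ∨ v = a₂ ∨ v = a₃) := by simp [hA]
    by_cases hv : v ∈ A
    · rw [if_pos hv] at key
      rw [if_pos (hAm.1 hv)]
      omega
    · rw [if_neg hv] at key
      rw [if_neg (fun hh => hv (hAm.2 hh))]
      omega
  · intro v
    have key : ∑ d ∈ univ.filter (fun d => M.fc d = v),
        (if (zz (M.ed d)).isRight = true ∧ c (M.ed d) = d then 0 else 1) +
        need M A f₀ (Sum.inr v) = lenF M v := by
      rw [← hcnt, ← card_image_of_injOn (f := c) (s := univ.filter (fun e => zz e = Sum.inr v))]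
      · have h1 : (univ.filter (fun e => zz e = Sum.inr v)).image c =
            (univ.filter (fun d => M.fc d = v)).filter
              (fun d => (zz (M.ed d)).isRight = true ∧ c (M.ed d) = d) := by
          ext d
          simp only [mem_image, mem_filter, mem_univ, true_and]
          constructor
          · rintro ⟨e, he, rfl⟩
            rw [hc1 e, he]
            exact ⟨hc3 e v he, rfl, rfl⟩
          · rintro ⟨h1, h2, h3⟩
            refine ⟨M.ed d, ?_, h3⟩
            rcases hz : zz (M.ed d) with w | f
            · rw [hz] at h2; cases h2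
            · have := hc3 _ _ hz
              rw [h3, h1] at this
              rw [this]
        rw [h1, Finset.card_filter, ← Finset.sum_add_distrib]
        unfold lenF
        rw [Finset.card_eq_sum_ones]
        refine Finset.sum_congr rfl (fun d _ => ?_)
        split_ifs <;> rfl
      · intro e _ e' _ hee
        rw [← hc1 e, ← hc1 e', hee]
    have h3 := hdF v
    simp only [need, offF] at key
    dsimp only
    by_cases hv : v = f₀
    · rw [if_pos hv] at key
      rw [if_pos hv]
      omega
    · rw [if_neg hv] at key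
      rw [if_neg hv]
      omega

end Helper51.VF
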